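import Pool.Agent.X101.DMP.Paths
set_option autoImplicit false

/-! # Edges at the cliques, and the saturation of the graph -/

namespace Pool.Agent.X101.DMP

open Finset

variable {P : Par}

lemma dg_cl {x : ℕ × ℕ} (hx : P.o ≤ x.1) :
    dg P x = if 2 ≤ x.2 ∧ P.o + P.s ≤ x.1 then P.k - 1 else P.k - 2 := by
  unfold dg; rw [if_neg (by omega)]

lemma cl_mem {x : ℕ × ℕ} (hx : inS P x) (h : P.o ≤ x.1) :
    x.1 < P.o + P.q ∧ x.2 < P.k ∧ (x.1 < P.o + P.s → x.2 ≠ 0) := by
  rcases hx with ⟨h1, -⟩ | ⟨-, h1⟩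
  · omega
  · exact h1

lemma cl_ne {u w : ℕ × ℕ} (hu : inS P u) (hw : inS P w) (huw : u ≠ w) (hn : ¬ R P u w)
    (h1 : P.o ≤ u.1) (h2 : u.1 < P.o + P.s ∨ 2 ≤ u.2) : w.1 ≠ u.1 := by
  intro h3
  have h4 := cl_mem hu h1
  have h5 := cl_mem hw (by omega)
  apply hn
  refine Or.inr (Or.inr ⟨h1, h3.symm, fun h6 => huw (Prod.ext h3.symm h6), fun h6 => ?_⟩)
  have h7 : u.2 = w.2 := by
    have := h4.2.2 (by omega)
    have := h5.2.2 (by omega)
    omega
  exact huw (Prod.ext h3.symm h7)

/-- a path with `k - 1` vertices which ends at a vertex of a clique, and one more vertex -/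
lemma path_cl (hP : Ok P) {u w : ℕ × ℕ} (hu : inS P u) (hw : inS P w) (huw : u ≠ w)
    (hn : ¬ R P u w) (h1 : P.o ≤ u.1) (h2 : u.1 < P.o + P.s ∨ 2 ≤ u.2)
    (hd : del P u w u ≤ del P u w w) : ∃ f, Pth P u w P.k f := by
  have hk := hP.hk
  have hwu := cl_ne hu hw huw hn h1 h2
  obtain ⟨h3, h4, h5⟩ := cl_mem hu h1
  have hu1 : 1 ≤ u.2 := by
    rcases h2 with h2 | h2
    · have := h5 h2; omega
    · omega
  set c : ℕ → ℕ := fun t => if t + 1 < u.2 then t + 1 else if t + 2 = P.k then u.2 else t + 2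
    with hc
  have c1 : ∀ t, t + 1 < P.k → 1 ≤ c t ∧ c t < P.k := by
    intro t ht
    simp only [hc]
    split_ifs <;> omega
  have c2 : ∀ s t, s < t → t + 1 < P.k → c s ≠ c t := by
    intro s t hst ht
    simp only [hc]
    split_ifs <;> omega
  have c3 : c (P.k - 2) = u.2 := by
    simp only [hc]
    split_ifs <;> omega
  have c4 : ∀ t, c (t + 1) = 1 → t + 3 < P.k → False := by
    intro t h ht
    simp only [hc] at h
    split_ifs at h <;> omega
  have c5 : ∀ t, t + 2 < P.k → c t ≠ u.2 := by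
    intro t ht
    simp only [hc]
    split_ifs <;> omega
  set F : ℕ → ℕ × ℕ := fun t => if t + 1 < P.k then (u.1, c t) else w with hF
  have e1 : ∀ t, t + 1 < P.k → F t = (u.1, c t) := fun t ht => by simp only [hF, if_pos ht]
  have e2 : ∀ t, t + 1 = P.k → F t = w := fun t ht => by
    simp only [hF]; rw [if_neg (by omega)]
  have e3 : F (P.k - 2) = u := by
    rw [e1 _ (by omega), c3]
  have hne : ∀ t, (u.1, c t) ≠ w := fun t h => hwu (by rw [← h])
  refine ⟨F, ?_, ?_, ?_, ?_⟩
  · intro t ht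
    rcases Nat.lt_or_ge (t + 1) P.k with h | h
    · rw [e1 t h]
      exact Or.inr ⟨h1, h3, (c1 t h).2, fun _ => by have := (c1 t h).1; simp only; omega⟩
    · rw [e2 t (by omega)]; exact hw
  · intro s t hst ht heq
    rcases Nat.lt_or_ge (t + 1) P.k with h | h
    · rw [e1 t h, e1 s (by omega)] at heq
      exact c2 s t hst h (Prod.mk.inj heq).2
    · rw [e2 t (by omega), e1 s (by omega)] at heq
      exact hne s heq
  · intro t ht
    rcases Nat.lt_or_ge (t + 2) P.k with h | h
    · rw [e1 t ht, e1 (t + 1) h]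
      refine Or.inl (Or.inr (Or.inr ⟨h1, rfl, c2 t (t + 1) (by omega) h, ?_⟩))
      simp only
      have d1 := c2 t (t + 1) (by omega) h
      have d2 := (c1 t ht).1
      have d3 := (c1 (t + 1) h).1
      omega
    · have h6 : t = P.k - 2 := by omega
      rw [e2 (t + 1) (by omega), h6, e3]
      exact Or.inr (Or.inl ⟨rfl, rfl⟩)
  · intro t ht
    rcases Nat.lt_or_ge (t + 2) P.k with h | h
    · rw [e1 t ht, e1 (t + 1) h]
      have d0 : ((u.1, c t) : ℕ × ℕ) ≠ u := fun hh => c5 t h (by rw [← hh])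
      rw [del_other d0 (hne t), dg_cl (x := (u.1, c t)) h1]
      rcases Nat.lt_or_ge (t + 3) P.k with h7 | h7
      · refine le_trans ?_ (le_del u w _)
        rw [dg_cl (x := (u.1, c (t + 1))) h1]
        simp only
        have d3 := (c1 (t + 1) h).1
        have d4 : c (t + 1) ≠ 1 := fun hh => c4 t hh h7
        by_cases h8 : P.o + P.s ≤ u.1
        · rw [if_pos (show 2 ≤ c (t + 1) ∧ P.o + P.s ≤ u.1 from ⟨by omega, h8⟩)]
          split_ifs <;> omega
        · rw [if_neg (by omega), if_neg (by omega)]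
      · have h8 : t + 1 = P.k - 2 := by omega
        have h9 : ((u.1, c (t + 1)) : ℕ × ℕ) = u := by rw [h8, c3]
        rw [h9, del_self huw, dg_cl h1]
        split_ifs <;> omega
    · have h6 : t = P.k - 2 := by omega
      rw [e2 (t + 1) (by omega), h6, e3]
      exact hd

/-- an edge at one of the two non-adjacent vertices of a clique without an edge -/
lemma path_end (hP : Ok P) {u w : ℕ × ℕ} (hu : inS P u) (huw : u ≠ w)
    (hn : ¬ R P u w) (h1 : P.o + P.s ≤ u.1) (h2 : u.2 ≤ 1) (hk3 : 3 ≤ P.k) :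
    ∃ f, Pth P u w P.k f := by
  have h0 : P.o ≤ u.1 := by omega
  obtain ⟨h3, h4, h5⟩ := cl_mem hu h0
  have hR : ∀ a b, a ≠ b → ¬ (a ≤ 1 ∧ b ≤ 1) → R P (u.1, a) (u.1, b) :=
    fun a b hab h => Or.inr (Or.inr ⟨h0, rfl, hab, h⟩)
  have hw : ∀ a, 2 ≤ a → ((u.1, a) : ℕ × ℕ) ≠ w := by
    intro a ha hh
    apply hn
    rw [← hh]
    exact hR u.2 a (by omega) (by omega)
  set c : ℕ → ℕ := fun t => if t = 0 then 1 - u.2 else if t + 1 = P.k then u.2 else t + 1 with hc
  have c0 : c 0 = 1 - u.2 := by simp [hc]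
  have c1 : ∀ t, 1 ≤ t → t + 1 < P.k → c t = t + 1 := by
    intro t ht ht'
    simp only [hc]
    rw [if_neg (by omega), if_neg (by omega)]
  have c2 : c (P.k - 1) = u.2 := by
    simp only [hc]
    rw [if_neg (by omega), if_pos (by omega)]
  refine ⟨fun t => (u.1, c t), ?_, ?_, ?_, ?_⟩
  · intro t ht
    refine Or.inr ⟨h0, h3, ?_, fun h => by simp only at h; omega⟩
    simp only [hc]
    split_ifs <;> omega
  · intro s t hst ht heq
    have h6 : c s = c t := (Prod.mk.inj heq).2
    simp only [hc] at h6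
    split_ifs at h6 <;> omega
  · intro t ht
    have h6 : (1 ≤ t ∧ c t = t + 1) ∨ (t = 0 ∧ c t = 1 - u.2) := by
      rcases Nat.eq_zero_or_pos t with h6 | h6
      · subst h6; exact Or.inr ⟨rfl, c0⟩
      · exact Or.inl ⟨h6, c1 t h6 ht⟩
    have h7 : (t + 2 = P.k ∧ c (t + 1) = u.2) ∨ (t + 2 < P.k ∧ c (t + 1) = t + 2) := by
      rcases Nat.lt_or_ge (t + 2) P.k with h7 | h7
      · exact Or.inr ⟨h7, c1 (t + 1) (by omega) h7⟩
      · refine Or.inl ⟨by omega, ?_⟩
        rw [show t + 1 = P.k - 1 by omega]; exact c2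
    exact Or.inl (hR (c t) (c (t + 1)) (by omega) (by omega))
  · intro t ht
    have hu2 : ((u.1, u.2) : ℕ × ℕ) = u := rfl
    have hb : ∀ a, 2 ≤ a → del P u w (u.1, a) = P.k - 1 := by
      intro a ha
      rw [del_other (fun hh => by have := congrArg Prod.snd hh; simp only at this; omega) (hw a ha),
        dg_cl (x := (u.1, a)) h0, if_pos ⟨ha, h1⟩]
    have he : ∀ a, a ≤ 1 → del P u w (u.1, a) ≤ P.k - 1 := by
      intro a ha
      refine (del_le huw _).trans ?_
      rw [dg_cl (x := (u.1, a)) h0, if_neg (by simp only; omega)]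
      omega
    have hs : P.k - 1 ≤ del P u w (u.1, u.2) := by
      rw [hu2, del_self huw, dg_cl h0, if_neg (by omega)]
      omega
    rcases Nat.eq_zero_or_pos t with h6 | h6
    · subst h6
      have e1 : c (0 + 1) = 2 := c1 (0 + 1) le_rfl (by omega)
      rw [c0, e1, hb 2 le_rfl]
      exact he _ (by omega)
    · rw [c1 t h6 ht, hb (t + 1) (by omega)]
      rcases Nat.lt_or_ge (t + 2) P.k with h7 | h7
      · rw [c1 (t + 1) (by omega) h7, hb (t + 1 + 1) (by omega)]
      · rw [show t + 1 = P.k - 1 by omega, c2]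
        exact hs

lemma exists_path (hP : Ok P) (hk3 : 3 ≤ P.k ∨ P.q = P.s) {u w : ℕ × ℕ} (hu : inS P u)
    (hw : inS P w) (huw : u ≠ w) (hn : ¬ R P u w) : ∃ f, Pth P u w P.k f := by
  have hk := hP.hk
  have hn' : ¬ R P w u := fun h => hn (R_symm h)
  have hend : ∀ x : ℕ × ℕ, inS P x → P.o ≤ x.1 → ¬ (x.1 < P.o + P.s ∨ 2 ≤ x.2) →
      P.o + P.s ≤ x.1 ∧ x.2 ≤ 1 ∧ 3 ≤ P.k := by
    intro x hx h1 h2
    have h3 := cl_mem hx h1
    refine ⟨by omega, by omega, ?_⟩
    rcases hk3 with h | h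
    · exact h
    · omega
  have hdcl : ∀ x y : ℕ × ℕ, x ≠ y → P.o ≤ x.1 → del P x y x ≤ P.k := by
    intro x y hxy h
    rw [del_self hxy, dg_cl h]
    split_ifs <;> omega
  have hmain : P.o ≠ 0 → ∃ m, Mn P m := by
    intro h0
    rcases hP.main with h | ⟨m, a, b, c, d, e, f⟩
    · exact absurd h h0
    · exact ⟨m, a, b, c, d, e, f⟩
  have hbig : ∀ m, Mn P m → ∀ x : ℕ × ℕ, m ≤ x.1 → x.1 < P.o → P.k ≤ dg P x + 1 := by
    intro m hm x h1 h2
    have ho := hm.ho
    have hkk := hm.hk
    rcases Nat.lt_or_ge m x.1 with h3 | h3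
    · rw [dg_top hm (by omega)]; have := hm.hN2; omega
    · rw [dg_low hm h3]; omega
  -- one vertex in a clique, the other one in a level
  have hmix : ∀ x y : ℕ × ℕ, inS P x → inS P y → x ≠ y → ¬ R P x y → P.o ≤ x.1 → y.1 < P.o →
      ∃ f, Pth P x y P.k f := by
    intro x y hx hy hxy hnn h1 h2
    by_cases h3 : x.1 < P.o + P.s ∨ 2 ≤ x.2
    · obtain ⟨m, hm⟩ := hmain (by omega)
      rcases Nat.lt_or_ge y.1 m with h4 | h4
      · obtain ⟨f, hf⟩ := path_low hm hy hxy.symm (fun h => hnn (R_symm h)) h4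
        exact ⟨f, hf.symm⟩
      · refine path_cl hP hx hy hxy hnn h1 h3 ?_
        rw [del_self' hxy]
        exact (hdcl x y hxy h1).trans (hbig m hm y h4 h2)
    · obtain ⟨h4, h5, h6⟩ := hend x hx h1 h3
      exact path_end hP hx hxy hnn h4 h5 h6
  rcases Nat.lt_or_ge u.1 P.o with h1 | h1 <;> rcases Nat.lt_or_ge w.1 P.o with h2 | h2
  · obtain ⟨m, hm⟩ := hmain (by omega)
    have ho := hm.ho
    rcases Nat.lt_or_ge u.1 m with h3 | h3
    · exact path_low hm hu huw hn h3
    rcases Nat.lt_or_ge w.1 m with h4 | h4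
    · obtain ⟨f, hf⟩ := path_low hm hw huw.symm hn' h4
      exact ⟨f, hf.symm⟩
    have hcore : ∀ x y : ℕ × ℕ, inS P x → inS P y → x.1 = m → y.1 = m + 1 → R P x y := by
      intro x y hx hy h5 h6
      have h7 := lt_N hm hy (by omega)
      rw [h6, hm.hN1] at h7
      refine Or.inl ⟨by omega, by omega, ?_⟩
      unfold up
      rw [if_neg (by omega)]; omega
    rcases Nat.lt_or_ge m u.1 with h5 | h5 <;> rcases Nat.lt_or_ge m w.1 with h6 | h6
    · exact path_core hm hu hw huw (by omega) (by omega)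
    · exact absurd (hcore w u hw hu (by omega) (by omega)) hn'
    · exact absurd (hcore u w hu hw (by omega) (by omega)) hn
    · exact path_top hm hu hw huw (by omega) (by omega)
  · obtain ⟨f, hf⟩ := hmix w u hw hu huw.symm hn' h2 h1
    exact ⟨f, hf.symm⟩
  · exact hmix u w hu hw huw hn h1 h2
  · by_cases h3 : u.1 < P.o + P.s ∨ 2 ≤ u.2
    · by_cases h4 : w.1 < P.o + P.s ∨ 2 ≤ w.2
      · rcases le_total (del P u w u) (del P u w w) with h5 | h5
        · exact path_cl hP hu hw huw hn h1 h3 h5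
        · rw [del_comm P u w, del_comm P u w] at h5
          obtain ⟨f, hf⟩ := path_cl hP hw hu huw.symm hn' h2 h4 h5
          exact ⟨f, hf.symm⟩
      · obtain ⟨h5, h6, h7⟩ := hend w hw h2 h4
        obtain ⟨f, hf⟩ := path_end hP hw huw.symm hn' h5 h6 h7
        exact ⟨f, hf.symm⟩
    · obtain ⟨h5, h6, h7⟩ := hend u hu h1 h3
      exact path_end hP hu huw hn h5 h6 h7

/-- no long path in the graph -/
lemma rank_inj (hP : Ok P) (M : ℕ) (v : Fin M → VV P) (hv : Function.Injective v)
    (ha : ∀ i j : Fin M, (i : ℕ) + 1 = j → (GG P).Adj (v i) (v j))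
    (hd : ∀ i j : Fin M, (i : ℕ) + 1 = j → deg (GG P) (v i) ≤ deg (GG P) (v j)) :
    M < P.k := by
  have hk := hP.hk
  simp only [deg_GG hP] at hd
  have ha' : ∀ i j : Fin M, (i : ℕ) + 1 = j → R P (v i).1 (v j).1 := ha
  have hS : ∀ i, inS P (v i).1 := fun i => (mem_vset hP _).1 (v i).2
  -- degrees along the path
  have mono : ∀ (d : ℕ) (i j : Fin M), (i : ℕ) + d = j → dg P (v i).1 ≤ dg P (v j).1 := by
    intro d
    induction d with
    | zero => intro i j hij; have : i = j := Fin.ext (by omega); rw [this]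
    | succ d ih =>
      intro i j hij
      have hj := j.2
      exact (ih i ⟨j - 1, by omega⟩ (by simp only; omega)).trans
        (hd ⟨j - 1, by omega⟩ j (by simp only; omega))
  -- one step
  have stp : ∀ i j : Fin M, (i : ℕ) + 1 = j →
      ((v i).1.1 < P.o → (v j).1.1 < P.o ∧ (v j).1.1 = (v i).1.1 + 1) ∧
      (P.o ≤ (v i).1.1 → (v j).1.1 = (v i).1.1) := by
    intro i j hij
    refine ⟨fun h => ?_, fun h => ?_⟩
    · rcases ha' i j hij with h1 | h1 | h1
      · exact ⟨h1.2.1, h1.1⟩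
      · exfalso
        have h2 := hd i j hij
        rcases hP.main with h0 | ⟨m, a, b, c, d', e, f⟩
        · omega
        have hm : Mn P m := ⟨a, b, c, d', e, f⟩
        have h3 := h1.1
        rw [dg_low hm (show (v j).1.1 ≤ m by omega)] at h2
        rcases Nat.lt_or_ge m (v i).1.1 with h4 | h4
        · rw [dg_top hm (by omega)] at h2; omega
        · rw [dg_low hm h4] at h2; omega
      · have := h1.1; omega
    · rcases ha' i j hij with h1 | h1 | h1
      · have := h1.1; have := h1.2.1; omega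
      · have := h1.2.1; omega
      · exact h1.2.1.symm
  have lv : ∀ (d : ℕ) (i j : Fin M), (i : ℕ) + d = j →
      ((v i).1.1 < P.o → (v j).1.1 < P.o ∧ (v j).1.1 = (v i).1.1 + d) ∧
      (P.o ≤ (v i).1.1 → (v j).1.1 = (v i).1.1) := by
    intro d
    induction d with
    | zero =>
      intro i j hij
      have : i = j := Fin.ext (by omega)
      rw [this]
      exact ⟨fun h => ⟨h, rfl⟩, fun _ => rfl⟩
    | succ d ih =>
      intro i j hij
      have hj := j.2
      obtain ⟨a1, a2⟩ := ih i ⟨j - 1, by omega⟩ (by simp only; omega)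
      obtain ⟨b1, b2⟩ := stp ⟨j - 1, by omega⟩ j (by simp only; omega)
      refine ⟨fun h => ?_, fun h => ?_⟩
      · obtain ⟨a3, a4⟩ := a1 h
        obtain ⟨b3, b4⟩ := b1 a3
        exact ⟨b3, by omega⟩
      · have := a2 h
        rw [b2 (by omega), this]
  set ρ : Fin M → ℕ := fun i => if (v i).1.1 < P.o then (v i).1.1 else (v i).1.2 - 1 with hρ
  have hlt : ∀ i, ρ i < P.k - 1 := by
    intro i
    simp only [hρ]
    split_ifs with h
    · rcases hP.main with h0 | ⟨m, a, b, c, d', e, f⟩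
      · omega
      · omega
    · have := cl_mem (hS i) (by omega); omega
  have hinj : ∀ i j : Fin M, (i : ℕ) < j → ρ i ≠ ρ j := by
    intro i j hij heq
    obtain ⟨l1, l2⟩ := lv (j - i) i j (by omega)
    rcases Nat.lt_or_ge (v i).1.1 P.o with h | h
    · obtain ⟨l3, l4⟩ := l1 h
      simp only [hρ, if_pos h, if_pos l3] at heq
      omega
    · have l3 := l2 h
      simp only [hρ] at heq
      rw [if_neg (by omega), if_neg (by omega)] at heq
      have hne : (v i).1.2 ≠ (v j).1.2 := by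
        intro h5
        have : i = j := hv (Subtype.ext (Prod.ext l3.symm h5))
        rw [this] at hij
        exact lt_irrefl _ hij
      have c1 := cl_mem (hS i) h
      have c2 := cl_mem (hS j) (by omega)
      have hle : (v i).1.2 ≤ 1 ∧ (v j).1.2 ≤ 1 := by omega
      have hbig : P.o + P.s ≤ (v i).1.1 := by
        by_contra hc
        have := c1.2.2 (by omega)
        have := c2.2.2 (by omega)
        omega
      have hj := j.2
      set i' : Fin M := ⟨i + 1, by omega⟩ with hi'
      have d1 := mono (j - i - 1) i' j (by simp only [hi']; omega)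
      have d2 := ha' i i' rfl
      have d3 := (stp i i' rfl).2 h
      rw [dg_cl (by omega), dg_cl (show P.o ≤ (v j).1.1 by omega)] at d1
      rw [if_neg (show ¬ (2 ≤ (v j).1.2 ∧ P.o + P.s ≤ (v j).1.1) by omega)] at d1
      split_ifs at d1 with h6
      · omega
      rcases d2 with h7 | h7 | h7
      · have := h7.2.1; omega
      · have := h7.2.1; omega
      · obtain ⟨-, -, h8, h9⟩ := h7
        omega
  have hinj' : Function.Injective (fun i : Fin M => (⟨ρ i, hlt i⟩ : Fin (P.k - 1))) := by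
    intro i j hij
    have h1 : ρ i = ρ j := by simpa using hij
    rcases Nat.lt_trichotomy (i : ℕ) j with h | h | h
    · exact absurd h1 (hinj i j h)
    · exact Fin.ext h
    · exact absurd h1.symm (hinj j i h)
  have := Fintype.card_le_of_injective _ hinj'
  simp only [Fintype.card_fin] at this
  omega

theorem saturated (hP : Ok P) (hk3 : 3 ≤ P.k ∨ P.q = P.s) : Saturated P.k (GG P) := by
  classical
  refine ⟨mp_lt (by have := hP.hk; omega) (bound_of fun M v h1 h2 h3 => rank_inj hP M v h1 h2 h3),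
    ?_⟩
  intro u w huw hn
  have hne : u.1 ≠ w.1 := fun h => huw (Subtype.ext h)
  obtain ⟨f, hf⟩ := exists_path hP hk3 ((mem_vset hP _).1 u.2) ((mem_vset hP _).1 w.2) hne hn
  have hdel : ∀ x : VV P, deg (GG P ⊔ SimpleGraph.edge u w) x = del P u.1 w.1 x.1 := by
    intro x
    rw [deg_sup_edge huw hn, deg_GG hP]
    unfold del
    simp only [Subtype.ext_iff]
  have hmem : ∀ t, t < P.k → f t ∈ vset P := fun t ht => (mem_vset hP _).2 (hf.mem t ht)
  refine le_mp (hasMonoPath_of (fun t => if h : t < P.k then (⟨f t, hmem t h⟩ : VV P) else u)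
    ?_ ?_ ?_)
  · intro s t hs ht heq
    simp only [dif_pos hs, dif_pos ht, Subtype.mk.injEq] at heq
    rcases Nat.lt_trichotomy s t with h | h | h
    · exact absurd heq (hf.inj s t h ht)
    · exact h
    · exact absurd heq.symm (hf.inj t s h hs)
  · intro t ht
    have ht' : t < P.k := by omega
    simp only [dif_pos ht, dif_pos ht']
    rw [SimpleGraph.sup_adj, SimpleGraph.edge_adj]
    rcases hf.adj t ht with h | h | h
    · exact Or.inl h
    · exact Or.inr ⟨Or.inl ⟨Subtype.ext h.1, Subtype.ext h.2⟩, fun hh =>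
        hf.inj t (t + 1) (by omega) ht (congrArg Subtype.val hh)⟩
    · exact Or.inr ⟨Or.inr ⟨Subtype.ext h.1, Subtype.ext h.2⟩, fun hh =>
        hf.inj t (t + 1) (by omega) ht (congrArg Subtype.val hh)⟩
  · intro t ht
    have ht' : t < P.k := by omega
    simp only [dif_pos ht, dif_pos ht', hdel]
    exact hf.asc t ht

end Pool.Agent.X101.DMP
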