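import Mathlib
set_option autoImplicit false

/-! # Degree monotone paths and saturated graphs: definitions and general lemmas -/

namespace Pool.Agent.X101.DMP

/-- the degree of a vertex -/
noncomputable def deg {V : Type} (G : SimpleGraph V) (v : V) : ℕ := (G.neighborSet v).ncard

/-- `G` has a degree monotone path with `m` vertices -/
def HasMonoPath {V : Type} (G : SimpleGraph V) (m : ℕ) : Prop :=
  ∃ v : Fin m → V, Function.Injective v ∧
    (∀ i j : Fin m, (i : ℕ) + 1 = j → G.Adj (v i) (v j)) ∧
    ((∀ i j : Fin m, (i : ℕ) + 1 = j → deg G (v i) ≤ deg G (v j)) ∨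
      (∀ i j : Fin m, (i : ℕ) + 1 = j → deg G (v j) ≤ deg G (v i)))

/-- the largest number of vertices of a degree monotone path -/
noncomputable def mp {V : Type} (G : SimpleGraph V) : ℕ := sSup {m | HasMonoPath G m}

/-- `k`-saturated graphs -/
def Saturated {V : Type} (k : ℕ) (G : SimpleGraph V) : Prop :=
  mp G < k ∧ ∀ u w : V, u ≠ w → ¬ G.Adj u w → k ≤ mp (G ⊔ SimpleGraph.edge u w)

lemma HasMonoPath.le_card {V : Type} [Finite V] {G : SimpleGraph V} {m : ℕ}
    (h : HasMonoPath G m) : m ≤ Nat.card V := by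
  obtain ⟨v, hv, -⟩ := h
  have := Nat.card_le_card_of_injective v hv
  simpa using this

lemma bdd {V : Type} [Finite V] (G : SimpleGraph V) : BddAbove {m | HasMonoPath G m} :=
  ⟨Nat.card V, fun _ hm => hm.le_card⟩

lemma le_mp {V : Type} [Finite V] {G : SimpleGraph V} {m : ℕ} (h : HasMonoPath G m) :
    m ≤ mp G := le_csSup (bdd G) h

lemma mp_lt {V : Type} {G : SimpleGraph V} {k : ℕ} (hk : 0 < k)
    (h : ∀ m, HasMonoPath G m → m < k) : mp G < k := by
  have h0 : HasMonoPath G 0 := ⟨fun i => i.elim0, fun i => i.elim0, fun i => i.elim0,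
    Or.inl fun i => i.elim0⟩
  have : mp G ≤ k - 1 := csSup_le ⟨0, h0⟩ fun m hm => Nat.le_sub_one_of_lt (h m hm)
  omega

/-- an ascending path of functions on the natural numbers -/
lemma hasMonoPath_of {V : Type} {G : SimpleGraph V} {m : ℕ} (f : ℕ → V)
    (h1 : ∀ s t, s < m → t < m → f s = f t → s = t)
    (h2 : ∀ t, t + 1 < m → G.Adj (f t) (f (t + 1)))
    (h3 : ∀ t, t + 1 < m → deg G (f t) ≤ deg G (f (t + 1))) : HasMonoPath G m := by
  refine ⟨fun i => f i, fun i j hij => Fin.ext (h1 _ _ i.2 j.2 hij), ?_, Or.inl ?_⟩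
  · intro i j hij
    have := h2 i (by omega)
    rwa [hij] at this
  · intro i j hij
    have := h3 i (by omega)
    rwa [hij] at this

/-- it is enough to bound the lengths of ascending paths -/
lemma bound_of {V : Type} {G : SimpleGraph V} {k : ℕ}
    (h : ∀ (m : ℕ) (v : Fin m → V), Function.Injective v →
      (∀ i j : Fin m, (i : ℕ) + 1 = j → G.Adj (v i) (v j)) →
      (∀ i j : Fin m, (i : ℕ) + 1 = j → deg G (v i) ≤ deg G (v j)) → m < k) :
    ∀ m, HasMonoPath G m → m < k := by
  rintro m ⟨v, hv, ha, hd | hd⟩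
  · exact h m v hv ha hd
  · refine h m (fun i => v i.rev) (fun i j hij => Fin.rev_injective (hv hij)) ?_ ?_
    · intro i j hij
      refine (ha j.rev i.rev ?_).symm
      rw [Fin.val_rev, Fin.val_rev]; omega
    · intro i j hij
      refine hd j.rev i.rev ?_
      rw [Fin.val_rev, Fin.val_rev]; omega

/-- degrees after the addition of an edge -/
lemma deg_sup_edge {V : Type} [Finite V] [DecidableEq V] {G : SimpleGraph V} {u w : V}
    (huw : u ≠ w) (hn : ¬ G.Adj u w) (x : V) :
    deg (G ⊔ SimpleGraph.edge u w) x = deg G x + (if x = u then 1 else 0) +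
      (if x = w then 1 else 0) := by
  have key : (G ⊔ SimpleGraph.edge u w).neighborSet x = G.neighborSet x ∪
      ((if x = u then {w} else ∅) ∪ (if x = w then {u} else ∅)) := by
    ext y
    simp only [SimpleGraph.mem_neighborSet, SimpleGraph.sup_adj, SimpleGraph.edge_adj,
      Set.mem_union]
    constructor
    · rintro (h | ⟨⟨h1, h2⟩ | ⟨h1, h2⟩, h3⟩)
      · exact Or.inl h
      · subst h1 h2; right; left; simp
      · subst h1 h2; right; right; simp
    · rintro (h | h | h)
      · exact Or.inl h
      · split_ifs at h with hx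
        · rw [Set.mem_singleton_iff] at h
          subst hx h
          exact Or.inr ⟨Or.inl ⟨rfl, rfl⟩, huw⟩
        · exact absurd h (Set.notMem_empty _)
      · split_ifs at h with hx
        · rw [Set.mem_singleton_iff] at h
          subst hx h
          exact Or.inr ⟨Or.inr ⟨rfl, rfl⟩, huw.symm⟩
        · exact absurd h (Set.notMem_empty _)
  unfold deg
  rw [key]
  by_cases hu : x = u
  · have hw : x ≠ w := fun h => huw (hu.symm.trans h)
    rw [if_pos hu, if_neg hw, if_pos hu, if_neg hw, Set.union_empty, Set.union_singleton,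
      Set.ncard_insert_of_notMem _ (Set.toFinite _)]
    rw [SimpleGraph.mem_neighborSet, hu]
    exact hn
  · by_cases hw : x = w
    · rw [if_neg hu, if_pos hw, if_neg hu, if_pos hw, Set.empty_union, Set.union_singleton,
        Set.ncard_insert_of_notMem _ (Set.toFinite _)]
      rw [SimpleGraph.mem_neighborSet, hw]
      exact fun h => hn h.symm
    · rw [if_neg hu, if_neg hw, if_neg hu, if_neg hw]
      simp

/-- transport along a bijection -/
lemma deg_comap {V W : Type} (e : W ≃ V) (G : SimpleGraph V) (x : W) :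
    deg (G.comap e) x = deg G (e x) := by
  unfold deg
  have : (G.comap e).neighborSet x = e ⁻¹' (G.neighborSet (e x)) := by
    ext y; simp [SimpleGraph.mem_neighborSet]
  rw [this, Set.ncard_preimage_of_injective_subset_range e.injective]
  intro y _
  exact ⟨e.symm y, e.apply_symm_apply y⟩

lemma hasMonoPath_comap {V W : Type} (e : W ≃ V) (G : SimpleGraph V) (m : ℕ) :
    HasMonoPath (G.comap e) m ↔ HasMonoPath G m := by
  constructor
  · rintro ⟨v, hv, ha, hd⟩
    refine ⟨fun i => e (v i), fun i j hij => hv (e.injective hij), ?_, ?_⟩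
    · intro i j hij; exact ha i j hij
    · simpa only [deg_comap] using hd
  · rintro ⟨v, hv, ha, hd⟩
    refine ⟨fun i => e.symm (v i), fun i j hij => hv (e.symm.injective hij), ?_, ?_⟩
    · intro i j hij
      simpa only [SimpleGraph.comap_adj, Equiv.apply_symm_apply] using ha i j hij
    · simpa only [deg_comap, Equiv.apply_symm_apply] using hd

lemma mp_comap {V W : Type} (e : W ≃ V) (G : SimpleGraph V) : mp (G.comap e) = mp G := by
  unfold mp
  simp only [hasMonoPath_comap]

lemma Saturated.comap {V W : Type} (e : W ≃ V) {G : SimpleGraph V} {k : ℕ}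
    (h : Saturated k G) : Saturated k (G.comap e) := by
  refine ⟨by rw [mp_comap]; exact h.1, fun u w huw hn => ?_⟩
  have h1 := h.2 (e u) (e w) (fun hh => huw (e.injective hh)) hn
  have h2 : G.comap e ⊔ SimpleGraph.edge u w = (G ⊔ SimpleGraph.edge (e u) (e w)).comap e := by
    ext x y
    simp only [SimpleGraph.sup_adj, SimpleGraph.comap_adj, SimpleGraph.edge_adj,
      e.injective.eq_iff, ne_eq]
  rw [h2, mp_comap]
  exact h1

lemma edges_comap {V W : Type} (e : W ≃ V) (G : SimpleGraph V) :
    (G.comap e).edgeSet.ncard = G.edgeSet.ncard := by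
  have h : G.comap e ≃g G := SimpleGraph.Iso.comap e G
  exact Nat.card_congr h.mapEdgeSet

end Pool.Agent.X101.DMP
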