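import Pool.Agent.X101.DMP.Clique
set_option autoImplicit false

/-! # Counting, and the final construction -/

namespace Pool.Agent.X101.DMP

open Finset

lemma twice_edges {V : Type} [Fintype V] (G : SimpleGraph V) :
    2 * G.edgeSet.ncard = ∑ v, deg G v := by
  classical
  have h1 : G.edgeSet.ncard = G.edgeFinset.card := by
    rw [Set.ncard_eq_toFinset_card']; rfl
  have h2 : ∀ v, deg G v = G.degree v := by
    intro v
    unfold deg
    rw [Set.ncard_eq_toFinset_card']; rfl
  rw [h1, ← G.sum_degrees_eq_twice_card_edges]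
  exact Finset.sum_congr rfl fun v _ => (h2 v).symm

variable {P : Par}

lemma sum_vset (f : ℕ × ℕ → ℕ) : ∑ x ∈ vset P, f x =
    ∑ i ∈ range (P.o + P.q), ∑ v ∈ fib P i, f (i, v) := by
  unfold vset
  rw [sum_biUnion]
  · refine sum_congr rfl fun i _ => ?_
    rw [sum_image]
    intro a _ b _ hab
    exact (Prod.mk.inj hab).2
  · intro i _ j _ hij
    rw [Function.onFun, disjoint_left]
    rintro ⟨a, b⟩ h1 h2
    rw [mem_image] at h1 h2
    obtain ⟨_, _, h3⟩ := h1
    obtain ⟨_, _, h4⟩ := h2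
    exact hij ((Prod.mk.inj h3).1.trans (Prod.mk.inj h4).1.symm)

lemma card_VV : Nat.card (VV P) = ∑ i ∈ range (P.o + P.q), (fib P i).card := by
  have h1 : Nat.card (VV P) = (vset P).card := by simp
  rw [h1, card_eq_sum_ones, sum_vset]
  exact sum_congr rfl fun i _ => (card_eq_sum_ones _).symm

lemma edges_eq (hP : Ok P) : 2 * (GG P).edgeSet.ncard =
    ∑ i ∈ range (P.o + P.q), ∑ v ∈ fib P i, dg P (i, v) := by
  rw [twice_edges, ← sum_vset, ← Finset.sum_coe_sort (vset P) (fun x => dg P x)]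
  exact sum_congr rfl fun x _ => deg_GG hP x

/-- the part of the cliques -/
lemma cl_card {s' : ℕ} (hq : P.q = P.s + s') :
    ∑ i ∈ range P.q, (fib P (P.o + i)).card = P.s * (P.k - 1) + s' * P.k := by
  rw [hq, sum_range_add]
  congr 1
  · rw [sum_congr rfl (g := fun _ => P.k - 1), sum_const, card_range, smul_eq_mul]
    intro i hi
    rw [mem_range] at hi
    unfold fib
    rw [if_neg (by omega), if_pos (by omega), Nat.card_Ico]
  · rw [sum_congr rfl (g := fun _ => P.k), sum_const, card_range, smul_eq_mul]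
    intro i hi
    rw [mem_range] at hi
    unfold fib
    rw [if_neg (by omega), if_neg (by omega), card_range]

lemma cl_edges : ∑ i ∈ range P.q, ∑ v ∈ fib P (P.o + i), dg P (P.o + i, v) ≤
    (P.k - 1) * ∑ i ∈ range P.q, (fib P (P.o + i)).card := by
  rw [mul_sum]
  refine sum_le_sum fun i _ => ?_
  rw [mul_comm, ← smul_eq_mul, ← sum_const]
  refine sum_le_sum fun v _ => ?_
  rw [dg_cl (x := (P.o + i, v)) (by simp)]
  split_ifs <;> omega

lemma main_card {m : ℕ} (h : Mn P m) : ∑ i ∈ range P.o, (fib P i).card =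
    ∑ i ∈ range (m + 1), P.N i + 2 := by
  rw [h.ho, sum_range_succ]
  congr 1
  · refine sum_congr rfl fun i hi => ?_
    rw [mem_range] at hi
    have := h.ho
    unfold fib
    rw [if_pos (by omega), card_range]
  · have := h.ho
    unfold fib
    rw [if_pos (by omega), card_range, h.hN1]

lemma main_edges {m : ℕ} (h : Mn P m) : ∑ i ∈ range P.o, ∑ v ∈ fib P i, dg P (i, v) =
    4 * ∑ i ∈ range (m + 1), P.N i := by
  have ho := h.ho
  have h1 : ∑ i ∈ range P.o, ∑ v ∈ fib P i, dg P (i, v) =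
      ∑ i ∈ range (m + 1), (i * P.N i + 2 * P.N i) + 2 * P.N m := by
    rw [ho, sum_range_succ]
    congr 1
    · refine sum_congr rfl fun i hi => ?_
      rw [mem_range] at hi
      unfold fib
      rw [if_pos (by omega), sum_congr rfl (g := fun _ => i + 2), sum_const, card_range,
        smul_eq_mul]
      · ring
      · intro v _
        exact dg_low h (x := (i, v)) (by simp only; omega)
    · unfold fib
      rw [if_pos (by omega), h.hN1, sum_congr rfl (g := fun _ => P.N m), sum_const, card_range,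
        smul_eq_mul]
      intro v _
      exact dg_top h (x := (m + 1, v)) rfl
  have h2 : ∑ i ∈ range (m + 1), i * P.N i = 2 * ∑ i ∈ range m, P.N i := by
    rw [sum_range_succ', mul_sum]
    simp only [zero_mul, add_zero]
    refine sum_congr rfl fun i hi => ?_
    rw [mem_range] at hi
    obtain ⟨B, hB1, hB2⟩ := h.hN i hi
    rw [hB1, hB2]; ring
  rw [h1, sum_add_distrib, h2, ← mul_sum, sum_range_succ]
  ring

lemma exists_of (hP : Ok P) (hk3 : 3 ≤ P.k ∨ P.q = P.s) {n : ℕ} (hn : Nat.card (VV P) = n) :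
    ∃ G : SimpleGraph (Fin n), Saturated P.k G ∧ G.edgeSet.ncard = (GG P).edgeSet.ncard := by
  have e : Fin n ≃ VV P := (Finite.equivFinOfCardEq hn).symm
  exact ⟨(GG P).comap e, (saturated hP hk3).comap e, edges_comap e (GG P)⟩

/-- the numbers of vertices of the levels -/
def NN (m T i : ℕ) : ℕ := if i ≤ m then T * 2 ^ i * Nat.descFactorial m (m - i) else 2

lemma sum_NN (m T : ℕ) : ∑ i ∈ range (m + 1), NN m T i =
    T * ∑ i ∈ range (m + 1), 2 ^ i * Nat.descFactorial m (m - i) := by
  rw [mul_sum]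
  refine sum_congr rfl fun i hi => ?_
  rw [mem_range] at hi
  unfold NN
  rw [if_pos (by omega)]; ring

lemma mn_NN {m T s q : ℕ} (hm : 1 ≤ m) (hT : m + 3 ≤ T) :
    Mn ⟨m + 2, q, s, m + 3, NN m T⟩ m := by
  refine ⟨hm, rfl, rfl, ?_, ?_, ?_⟩
  · simp only; unfold NN; rw [if_neg (by omega)]
  · simp only; unfold NN
    rw [if_pos le_rfl, Nat.sub_self, Nat.descFactorial_zero, mul_one]
    exact hT.trans (Nat.le_mul_of_pos_right _ (by positivity))
  · intro i hi
    refine ⟨T * 2 ^ i * Nat.descFactorial m (m - i - 1), ?_, ?_⟩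
    · simp only; unfold NN
      rw [if_pos hi.le]
      have h1 : m - i = (m - i - 1) + 1 := by omega
      have h2 : m - (m - i - 1) = i + 1 := by omega
      conv_lhs => rw [h1, Nat.descFactorial_succ, h2]
      ring
    · simp only; unfold NN
      rw [if_pos (Nat.succ_le_of_lt hi), show m - (i + 1) = m - i - 1 by omega, pow_succ]
      ring

/-- every large number is a combination of `k - 1` and `k` -/
lemma repr (k r : ℕ) (hk : 2 ≤ k) (hr : k * k ≤ r) : ∃ s s', s * (k - 1) + s' * k = r := by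
  have h1 := Nat.div_add_mod r (k - 1)
  have h2 := Nat.mod_lt r (show 0 < k - 1 by omega)
  have h3 : k ≤ r / (k - 1) := by
    rw [Nat.le_div_iff_mul_le (by omega)]
    exact (Nat.mul_le_mul_left k (Nat.sub_le k 1)).trans hr
  set a := r / (k - 1)
  set b := r % (k - 1)
  refine ⟨a - b, b, ?_⟩
  obtain ⟨c, hc⟩ : ∃ c, a = b + c := ⟨a - b, by omega⟩
  obtain ⟨l, hl⟩ : ∃ l, k = l + 1 := ⟨k - 1, by omega⟩
  rw [hc] at h1 ⊢
  rw [hl] at h1 ⊢
  simp only [Nat.add_sub_cancel, Nat.add_sub_cancel_left] at h1 ⊢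
  rw [← h1]; ring

theorem main (k : ℕ) (hk : 2 ≤ k) : ∃ C n₀ : ℕ, ∀ n, n₀ ≤ n →
    ∃ G : SimpleGraph (Fin n), Saturated k G ∧ G.edgeSet.ncard ≤ 2 * n + C := by
  rcases Nat.lt_or_ge k 4 with hk4 | hk4
  · -- only cliques
    have key : ∀ n s s' : ℕ, s * (k - 1) + s' * k = n → (3 ≤ k ∨ s' = 0) →
        ∃ G : SimpleGraph (Fin n), Saturated k G ∧ G.edgeSet.ncard ≤ 2 * n := by
      intro n s s' hn h3
      set P : Par := ⟨0, s + s', s, k, fun _ => 0⟩ with hPdef
      have hP : Ok P := ⟨hk, by simp [hPdef], Or.inl rfl⟩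
      have hcard : Nat.card (VV P) = n := by
        rw [card_VV]
        have := cl_card (P := P) (s' := s') rfl
        simp only [hPdef, zero_add] at this ⊢
        rw [this, hn]
      obtain ⟨G, hG1, hG2⟩ := exists_of hP (by simp only [hPdef]; omega) hcard
      refine ⟨G, hG1, ?_⟩
      have h4 := edges_eq hP
      have h5 := cl_edges (P := P)
      have h6 := cl_card (P := P) (s' := s') rfl
      rw [h6] at h5
      simp only [hPdef, zero_add] at h4 h5 hG2
      rw [hn] at h5
      have h7 : (k - 1) * n ≤ 4 * n := Nat.mul_le_mul_right _ (by omega)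
      rw [hG2]
      omega
    rcases Nat.lt_or_ge k 3 with h3 | h3
    · refine ⟨0, 0, fun n _ => ?_⟩
      have hk2 : k = 2 := by omega
      obtain ⟨G, h1, h2⟩ := key n n 0 (by rw [hk2]; simp) (Or.inr rfl)
      exact ⟨G, h1, by omega⟩
    · refine ⟨0, k * k, fun n hn => ?_⟩
      obtain ⟨s, s', hs⟩ := repr k n hk hn
      obtain ⟨G, h1, h2⟩ := key n s s' hs (Or.inl h3)
      exact ⟨G, h1, by omega⟩
  · obtain ⟨m, rfl⟩ : ∃ m, k = m + 3 := ⟨k - 3, by omega⟩
    have hm : 1 ≤ m := by omega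
    set S := ∑ i ∈ range (m + 1), 2 ^ i * Nat.descFactorial m (m - i) with hS
    have hS1 : 1 ≤ S := by
      rw [hS, sum_range_succ, Nat.sub_self, Nat.descFactorial_zero]
      have : 0 < 2 ^ m := by positivity
      omega
    set K0 := (m + 3) * (m + 3) with hK0
    refine ⟨(m + 3) * (K0 + S), 2 + K0 + (m + 3) * S, fun n hn => ?_⟩
    set T := (n - 2 - K0) / S with hT
    set r := K0 + (n - 2 - K0) % S with hr
    have h1 := Nat.div_add_mod (n - 2 - K0) S
    have h2 := Nat.mod_lt (n - 2 - K0) (show 0 < S by omega)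
    have hT1 : m + 3 ≤ T := by
      rw [hT, Nat.le_div_iff_mul_le (by omega)]; omega
    obtain ⟨s, s', hs⟩ := repr (m + 3) r hk (by omega)
    have hn' : n = 2 + S * T + r := by
      rw [← hT] at h1; omega
    set P : Par := ⟨m + 2, s + s', s, m + 3, NN m T⟩ with hPdef
    have hM : Mn P m := mn_NN hm hT1
    have hP : Ok P := ⟨hk, by simp [hPdef], Or.inr ⟨m, hM.hm, hM.ho, hM.hk, hM.hN1, hM.hN2, hM.hN⟩⟩
    have hsum : ∑ i ∈ range (m + 1), P.N i = S * T := by
      simp only [hPdef]
      rw [sum_NN, mul_comm]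
    have c1 := main_card hM
    have c2 := cl_card (P := P) (s' := s') rfl
    have hPs : P.s = s := rfl
    have hPk : P.k = m + 3 := rfl
    rw [hsum] at c1
    rw [hPs, hPk, hs] at c2
    have hcard : Nat.card (VV P) = n := by
      rw [card_VV, sum_range_add, c1, c2, hn']; ring
    obtain ⟨G, hG1, hG2⟩ := exists_of hP (by simp only [hPdef]; omega) hcard
    refine ⟨G, hG1, ?_⟩
    have h4 := edges_eq hP
    rw [sum_range_add, main_edges hM, hsum] at h4
    have h5 := cl_edges (P := P)
    rw [c2, hPk] at h5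
    rw [hG2]
    have h6 : (m + 3 - 1) * r ≤ (m + 3) * (K0 + S) :=
      Nat.mul_le_mul (by omega) (by omega)
    omega

end Pool.Agent.X101.DMP
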