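import Pool.Agent.X101.DMP.Defs
set_option autoImplicit false

/-! # The levelled graph with cliques -/

namespace Pool.Agent.X101.DMP

open Finset

/-- parameters: `o` levels, `q` cliques, the first `s` of them have one vertex less -/
structure Par where
  o : ℕ
  q : ℕ
  s : ℕ
  k : ℕ
  N : ℕ → ℕ

/-- index of the block above `(i, v)` -/
def up (P : Par) (i v : ℕ) : ℕ := if i + 2 < P.o then v / (i + 1) else 0

/-- edges between consecutive levels -/
def R0 (P : Par) (x y : ℕ × ℕ) : Prop := y.1 = x.1 + 1 ∧ y.1 < P.o ∧ up P x.1 x.2 = y.2 / 2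

/-- edges of the cliques -/
def RC (P : Par) (x y : ℕ × ℕ) : Prop :=
  P.o ≤ x.1 ∧ x.1 = y.1 ∧ x.2 ≠ y.2 ∧ ¬ (x.2 ≤ 1 ∧ y.2 ≤ 1)

def R (P : Par) (x y : ℕ × ℕ) : Prop := R0 P x y ∨ R0 P y x ∨ RC P x y

def inS (P : Par) (x : ℕ × ℕ) : Prop :=
  (x.1 < P.o ∧ x.2 < P.N x.1) ∨
    (P.o ≤ x.1 ∧ x.1 < P.o + P.q ∧ x.2 < P.k ∧ (x.1 < P.o + P.s → x.2 ≠ 0))

/-- fibers of the vertex set -/
def fib (P : Par) (i : ℕ) : Finset ℕ :=
  if i < P.o then range (P.N i) else if i < P.o + P.s then Ico 1 P.k else range P.k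

def vset (P : Par) : Finset (ℕ × ℕ) :=
  (range (P.o + P.q)).biUnion fun i => (fib P i).image fun v => (i, v)

structure Ok (P : Par) : Prop where
  hk : 2 ≤ P.k
  hs : P.s ≤ P.q
  main : P.o = 0 ∨ ∃ m, 1 ≤ m ∧ P.o = m + 2 ∧ P.k = m + 3 ∧ P.N (m + 1) = 2 ∧
    m + 3 ≤ P.N m ∧ ∀ i, i < m → ∃ B, P.N i = (i + 1) * B ∧ P.N (i + 1) = 2 * B

lemma mem_vset {P : Par} (hP : Ok P) (x : ℕ × ℕ) : x ∈ vset P ↔ inS P x := by
  obtain ⟨i, v⟩ := x
  have hs := hP.hs
  unfold vset inS fib
  simp only [mem_biUnion, mem_range, mem_image, Prod.mk.injEq]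
  constructor
  · rintro ⟨j, hj, w, hw, rfl, rfl⟩
    split_ifs at hw with h1 h2
    · exact Or.inl ⟨h1, mem_range.1 hw⟩
    · rw [mem_Ico] at hw
      exact Or.inr ⟨by omega, hj, by omega, fun _ => by omega⟩
    · rw [mem_range] at hw
      exact Or.inr ⟨by omega, hj, hw, fun h => absurd h h2⟩
  · rintro (⟨h1, h2⟩ | ⟨h1, h2, h3, h4⟩)
    · exact ⟨i, by omega, v, by rw [if_pos h1]; exact mem_range.2 h2, rfl, rfl⟩
    · refine ⟨i, h2, v, ?_, rfl, rfl⟩
      rw [if_neg (by omega)]
      split_ifs with h5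
      · rw [mem_Ico]; have := h4 h5; omega
      · exact mem_range.2 h3

abbrev VV (P : Par) : Type := {x : ℕ × ℕ // x ∈ vset P}

lemma R_symm {P : Par} {x y : ℕ × ℕ} (h : R P x y) : R P y x := by
  rcases h with h | h | ⟨h1, h2, h3, h4⟩
  · exact Or.inr (Or.inl h)
  · exact Or.inl h
  · exact Or.inr (Or.inr ⟨h2 ▸ h1, h2.symm, h3.symm, fun h => h4 ⟨h.2, h.1⟩⟩)

lemma R_irrefl {P : Par} (x : ℕ × ℕ) : ¬ R P x x := by
  rintro (⟨h, -⟩ | ⟨h, -⟩ | ⟨-, -, h, -⟩)
  · omega
  · omega
  · exact h rfl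

/-- the graph -/
def GG (P : Par) : SimpleGraph (VV P) where
  Adj x y := R P x.1 y.1
  symm := ⟨fun _ _ h => R_symm h⟩
  loopless := ⟨fun x => R_irrefl x.1⟩

lemma deg_eq {P : Par} (hP : Ok P) (x : VV P) (F : Finset (ℕ × ℕ))
    (hF : ∀ y, (inS P y ∧ R P x.1 y) ↔ y ∈ F) : deg (GG P) x = F.card := by
  unfold deg
  rw [← Set.ncard_image_of_injective _ (Subtype.val_injective), ← Set.ncard_coe_finset]
  congr 1
  ext y
  simp only [Set.mem_image, SimpleGraph.mem_neighborSet, mem_coe]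
  rw [← hF]
  constructor
  · rintro ⟨z, hz, rfl⟩
    exact ⟨(mem_vset hP _).1 z.2, hz⟩
  · rintro ⟨h1, h2⟩
    exact ⟨⟨y, (mem_vset hP _).2 h1⟩, h2, rfl⟩

/-- the degrees -/
def dg (P : Par) (x : ℕ × ℕ) : ℕ :=
  if x.1 < P.o then (if x.1 + 1 < P.o then x.1 + 2 else P.N (x.1 - 1))
  else if 2 ≤ x.2 ∧ P.o + P.s ≤ x.1 then P.k - 1 else P.k - 2

lemma deg_clique {P : Par} (hP : Ok P) (x : VV P) (hx : P.o ≤ x.1.1) :
    deg (GG P) x = dg P x.1 := by
  obtain ⟨⟨i, v⟩, hmem⟩ := x
  simp only at hx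
  have hin := (mem_vset hP _).1 hmem
  have hs := hP.hs
  have hk := hP.hk
  rcases hin with ⟨h, -⟩ | ⟨-, h2, h3, h4⟩
  · simp only at h; omega
  simp only at h2 h3 h4
  have hR : ∀ y : ℕ × ℕ, R P (i, v) y ↔ (y.1 = i ∧ v ≠ y.2 ∧ ¬ (v ≤ 1 ∧ y.2 ≤ 1)) := by
    intro y
    constructor
    · rintro (⟨h5, h6, -⟩ | ⟨h5, h6, -⟩ | ⟨-, h5, h6, h7⟩)
      · simp only at h5 h6; omega
      · simp only at h5 h6; omega
      · exact ⟨h5.symm, h6, h7⟩
    · rintro ⟨h5, h6, h7⟩
      exact Or.inr (Or.inr ⟨hx, h5.symm, h6, h7⟩)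
  unfold dg
  simp only
  rw [if_neg (by omega)]
  by_cases hv : v ≤ 1
  · rw [if_neg (by omega), deg_eq hP _ ((Ico 2 P.k).image fun t => (i, t)), card_image_of_injective,
      Nat.card_Ico]
    · intro a b hab; simpa using hab
    · rintro ⟨j, w⟩
      simp only [hR, mem_image, mem_Ico, Prod.mk.injEq]
      constructor
      · rintro ⟨h5, rfl, h6, h7⟩
        rcases h5 with ⟨h5, -⟩ | ⟨-, h8, h9, -⟩
        · simp only at h5; omega
        · exact ⟨w, ⟨by omega, h9⟩, rfl, rfl⟩
      · rintro ⟨a, ⟨h5, h6⟩, rfl, rfl⟩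
        exact ⟨Or.inr ⟨hx, h2, h6, fun _ => by simp only; omega⟩, rfl, by omega, by omega⟩
  · by_cases hj : P.o + P.s ≤ i
    · rw [if_pos ⟨by omega, hj⟩, deg_eq hP _ (((range P.k).erase v).image fun t => (i, t)),
        card_image_of_injective, card_erase_of_mem (mem_range.2 h3), card_range]
      · intro a b hab; simpa using hab
      · rintro ⟨j, w⟩
        simp only [hR, mem_image, mem_erase, mem_range, Prod.mk.injEq]
        constructor
        · rintro ⟨h5, rfl, h6, h7⟩
          rcases h5 with ⟨h5, -⟩ | ⟨-, h8, h9, -⟩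
          · simp only at h5; omega
          · exact ⟨w, ⟨by omega, h9⟩, rfl, rfl⟩
        · rintro ⟨a, ⟨h5, h6⟩, rfl, rfl⟩
          exact ⟨Or.inr ⟨hx, h2, h6, fun h => by simp only at h; omega⟩, rfl, by omega, by omega⟩
    · rw [if_neg (by omega), deg_eq hP _ (((Ico 1 P.k).erase v).image fun t => (i, t)),
        card_image_of_injective, card_erase_of_mem (mem_Ico.2 ⟨by omega, h3⟩), Nat.card_Ico]
      · omega
      · intro a b hab; simpa using hab
      · rintro ⟨j, w⟩
        simp only [hR, mem_image, mem_erase, mem_Ico, Prod.mk.injEq]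
        constructor
        · rintro ⟨h5, rfl, h6, h7⟩
          rcases h5 with ⟨h5, -⟩ | ⟨-, h8, h9, h10⟩
          · simp only at h5; omega
          · exact ⟨w, ⟨by omega, by have := h10 (by simp only; omega); simp only at this; omega, h9⟩, rfl, rfl⟩
        · rintro ⟨a, ⟨h5, h6, h7⟩, rfl, rfl⟩
          exact ⟨Or.inr ⟨hx, h2, h7, fun h => by simp only; omega⟩, rfl, by omega, by omega⟩

lemma div_block {i a c B : ℕ} (hi : 0 < i) (h : a / i = c) : i * c ≤ a ∧ a < i * c + i := by
  have h1 := Nat.div_add_mod a i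
  have h2 := Nat.mod_lt a hi
  rw [h] at h1
  omega

lemma block_div {i a c : ℕ} (h1 : i * c ≤ a) (h2 : a < i * c + i) : a / i = c := by
  have hi : 0 < i := by omega
  apply Nat.div_eq_of_lt_le
  · rw [mul_comm]; exact h1
  · rw [Nat.add_mul, one_mul, mul_comm c i]; exact h2

lemma deg_main {P : Par} (hP : Ok P) (x : VV P) (hx : x.1.1 < P.o) :
    deg (GG P) x = dg P x.1 := by
  obtain ⟨⟨i, v⟩, hmem⟩ := x
  simp only at hx
  have hin := (mem_vset hP _).1 hmem
  rcases hP.main with h0 | ⟨m, hm, ho, hkm, hN1, hN2, hN⟩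
  · omega
  rcases hin with ⟨-, h1⟩ | ⟨h, -⟩
  swap
  · simp only at h; omega
  simp only at h1
  have hRC : ∀ y : ℕ × ℕ, ¬ RC P (i, v) y := by
    rintro y ⟨h, -⟩
    simp only at h; omega
  -- the parents
  have hpar : ∀ y : ℕ × ℕ, i ≤ m → ((inS P y ∧ R0 P (i, v) y) ↔
      y = (i + 1, 2 * up P i v) ∨ y = (i + 1, 2 * up P i v + 1)) := by
    rintro ⟨j, w⟩ him
    have hb : 2 * up P i v + 1 < P.N (i + 1) := by
      unfold up
      rcases Nat.lt_or_ge i m with h | h
      · obtain ⟨B, hB1, hB2⟩ := hN i h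
        rw [if_pos (by omega), hB2]
        rw [hB1] at h1
        have : v / (i + 1) < B := Nat.div_lt_of_lt_mul h1
        omega
      · have : i = m := by omega
        subst this
        rw [if_neg (by omega), hN1]; omega
    constructor
    · rintro ⟨-, h2, h3, h4⟩
      simp only at h2 h3 h4
      subst h2
      simp only [Prod.mk.injEq, true_and]
      omega
    · intro h
      simp only [Prod.mk.injEq] at h
      have hj : j = i + 1 := by omega
      subst hj
      refine ⟨Or.inl ⟨by simp only; omega, by simp only; omega⟩, rfl, by simp only; omega, ?_⟩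
      simp only; omega
  -- the children
  have hchi : ∀ y : ℕ × ℕ, 1 ≤ i → i ≤ m → ((inS P y ∧ R0 P y (i, v)) ↔
      y ∈ (Ico (i * (v / 2)) (i * (v / 2) + i)).image fun t => (i - 1, t)) := by
    rintro ⟨j, w⟩ hi him
    obtain ⟨B, hB1, hB2⟩ := hN (i - 1) (by omega)
    rw [Nat.sub_add_cancel hi] at hB1 hB2
    rw [hB2] at h1
    have hvB : v / 2 < B := Nat.div_lt_of_lt_mul h1
    have hle : i * (v / 2) + i ≤ i * B := by
      calc i * (v / 2) + i = i * (v / 2 + 1) := by ring
        _ ≤ i * B := Nat.mul_le_mul_left _ hvB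
    simp only [mem_image, mem_Ico, Prod.mk.injEq]
    constructor
    · rintro ⟨-, h2, h3, h4⟩
      simp only at h2 h3 h4
      unfold up at h4
      rw [if_pos (by omega)] at h4
      have e1 : j + 1 = i := by omega
      rw [e1] at h4
      obtain ⟨h5, h6⟩ := div_block (B := 0) (by omega) h4
      exact ⟨w, ⟨h5, h6⟩, by omega, rfl⟩
    · rintro ⟨a, ⟨h5, h6⟩, rfl, rfl⟩
      refine ⟨Or.inl ⟨by simp only; omega, by simp only; rw [hB1]; omega⟩, by simp only; omega,
        by simp only; omega, ?_⟩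
      simp only
      unfold up
      rw [if_pos (by omega), Nat.sub_add_cancel hi]
      exact block_div h5 h6
  unfold dg
  simp only
  rw [if_pos hx]
  by_cases him : i ≤ m
  · rw [if_pos (by omega)]
    rcases Nat.eq_zero_or_pos i with hi | hi
    · subst hi
      rw [deg_eq hP _ {(0 + 1, 2 * up P 0 v), (0 + 1, 2 * up P 0 v + 1)}]
      · rw [card_pair (by simp)]
      · intro y
        rw [mem_insert, mem_singleton, ← hpar y him]
        constructor
        · rintro ⟨h2, h3 | h3 | h3⟩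
          · exact ⟨h2, h3⟩
          · have := h3.1; simp only at this; omega
          · exact absurd h3 (hRC y)
        · rintro ⟨h2, h3⟩; exact ⟨h2, Or.inl h3⟩
    · rw [deg_eq hP _ ({(i + 1, 2 * up P i v), (i + 1, 2 * up P i v + 1)} ∪
        (Ico (i * (v / 2)) (i * (v / 2) + i)).image fun t => (i - 1, t))]
      · rw [card_union_of_disjoint, card_pair (by simp), card_image_of_injective, Nat.card_Ico]
        · omega
        · intro a b hab; simpa using hab
        · rw [disjoint_left]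
          rintro ⟨a, b⟩ ha hb
          simp only [mem_insert, mem_singleton, Prod.mk.injEq] at ha
          simp only [mem_image, Prod.mk.injEq] at hb
          obtain ⟨_, _, h3, _⟩ := hb
          omega
      · intro y
        rw [mem_union, mem_insert, mem_singleton, ← hpar y him, ← hchi y hi him]
        constructor
        · rintro ⟨h2, h3 | h3 | h3⟩
          · exact Or.inl ⟨h2, h3⟩
          · exact Or.inr ⟨h2, h3⟩
          · exact absurd h3 (hRC y)
        · rintro (⟨h2, h3⟩ | ⟨h2, h3⟩)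
          · exact ⟨h2, Or.inl h3⟩
          · exact ⟨h2, Or.inr (Or.inl h3)⟩
  · have hi : i = m + 1 := by omega
    subst hi
    rw [if_neg (by omega), Nat.add_sub_cancel,
      deg_eq hP _ ((range (P.N m)).image fun t => (m, t)), card_image_of_injective, card_range]
    · intro a b hab; simpa using hab
    · rintro ⟨j, w⟩
      simp only [mem_image, mem_range, Prod.mk.injEq]
      have hv : v / 2 = 0 := by omega
      constructor
      · rintro ⟨h2, h3 | h3 | h3⟩
        · obtain ⟨h4, h5, -⟩ := h3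
          simp only at h4 h5; omega
        · obtain ⟨h4, h5, -⟩ := h3
          simp only at h4 h5
          rcases h2 with ⟨-, h6⟩ | ⟨h6, -⟩
          · simp only at h6
            have : j = m := by omega
            subst this
            exact ⟨w, h6, rfl, rfl⟩
          · simp only at h6; omega
        · exact absurd h3 (hRC _)
      · rintro ⟨a, h2, rfl, rfl⟩
        refine ⟨Or.inl ⟨by simp only; omega, h2⟩, Or.inr (Or.inl ⟨rfl, by simp only; omega, ?_⟩)⟩
        simp only
        unfold up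
        rw [if_neg (by omega), hv]

lemma deg_GG {P : Par} (hP : Ok P) (x : VV P) : deg (GG P) x = dg P x.1 := by
  rcases Nat.lt_or_ge x.1.1 P.o with h | h
  · exact deg_main hP x h
  · exact deg_clique hP x h

end Pool.Agent.X101.DMP
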