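import Pool.Agent.X101.DMP.Graph
set_option autoImplicit false

/-! # Long ascending paths after the addition of an edge -/

namespace Pool.Agent.X101.DMP

open Finset

/-- the degrees after the addition of the edge `u w` -/
def del (P : Par) (u w x : ℕ × ℕ) : ℕ :=
  dg P x + (if x = u then 1 else 0) + (if x = w then 1 else 0)

/-- an ascending path with `K` vertices in the graph with the additional edge -/
structure Pth (P : Par) (u w : ℕ × ℕ) (K : ℕ) (f : ℕ → ℕ × ℕ) : Prop where
  mem : ∀ t, t < K → inS P (f t)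
  inj : ∀ s t, s < t → t < K → f s ≠ f t
  adj : ∀ t, t + 1 < K → R P (f t) (f (t + 1)) ∨ (f t = u ∧ f (t + 1) = w) ∨
    (f t = w ∧ f (t + 1) = u)
  asc : ∀ t, t + 1 < K → del P u w (f t) ≤ del P u w (f (t + 1))

lemma del_comm (P : Par) (u w x : ℕ × ℕ) : del P u w x = del P w u x := by
  unfold del; ring

lemma Pth.symm {P : Par} {u w : ℕ × ℕ} {K : ℕ} {f : ℕ → ℕ × ℕ} (h : Pth P u w K f) :
    Pth P w u K f := by
  refine ⟨h.mem, h.inj, fun t ht => ?_, fun t ht => ?_⟩
  · rcases h.adj t ht with h1 | h1 | h1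
    · exact Or.inl h1
    · exact Or.inr (Or.inr h1)
    · exact Or.inr (Or.inl h1)
  · rw [del_comm P w u, del_comm P w u]
    exact h.asc t ht

lemma del_le {P : Par} {u w : ℕ × ℕ} (huw : u ≠ w) (x : ℕ × ℕ) : del P u w x ≤ dg P x + 1 := by
  unfold del
  split_ifs with h1 h2
  · exact absurd (h1.symm.trans h2) huw
  all_goals omega

lemma le_del {P : Par} (u w x : ℕ × ℕ) : dg P x ≤ del P u w x := by
  unfold del; omega

lemma del_self {P : Par} {u w : ℕ × ℕ} (huw : u ≠ w) : del P u w u = dg P u + 1 := by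
  unfold del; rw [if_pos rfl, if_neg huw]

lemma del_self' {P : Par} {u w : ℕ × ℕ} (huw : u ≠ w) : del P u w w = dg P w + 1 := by
  unfold del; rw [if_pos rfl, if_neg huw.symm]

lemma del_other {P : Par} {u w x : ℕ × ℕ} (h1 : x ≠ u) (h2 : x ≠ w) : del P u w x = dg P x := by
  unfold del; rw [if_neg h1, if_neg h2]; rfl

section main

variable {P : Par} {m : ℕ}

/-- the levels -/
structure Mn (P : Par) (m : ℕ) : Prop where
  hm : 1 ≤ m
  ho : P.o = m + 2
  hk : P.k = m + 3
  hN1 : P.N (m + 1) = 2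
  hN2 : m + 3 ≤ P.N m
  hN : ∀ i, i < m → ∃ B, P.N i = (i + 1) * B ∧ P.N (i + 1) = 2 * B

lemma dg_low (h : Mn P m) {x : ℕ × ℕ} (hx : x.1 ≤ m) : dg P x = x.1 + 2 := by
  unfold dg
  rw [if_pos (by have := h.ho; omega), if_pos (by have := h.ho; omega)]

lemma dg_top (h : Mn P m) {x : ℕ × ℕ} (hx : x.1 = m + 1) : dg P x = P.N m := by
  unfold dg
  rw [if_pos (by have := h.ho; omega), if_neg (by have := h.ho; omega), hx, Nat.add_sub_cancel]

lemma step (h : Mn P m) {u w : ℕ × ℕ} (huw : u ≠ w) {x y : ℕ × ℕ} (hxy : R0 P x y) :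
    del P u w x ≤ del P u w y := by
  obtain ⟨h1, h2, -⟩ := hxy
  have ho := h.ho
  refine (del_le huw x).trans (le_trans ?_ (le_del u w y))
  rw [dg_low h (show x.1 ≤ m by omega)]
  rcases Nat.lt_or_ge m y.1 with h3 | h3
  · rw [dg_top h (by omega)]; have := h.hN2; omega
  · rw [dg_low h h3]; omega

lemma lt_N (h : Mn P m) {x : ℕ × ℕ} (hx : inS P x) (h1 : x.1 ≤ m + 1) : x.2 < P.N x.1 := by
  rcases hx with ⟨-, h2⟩ | ⟨h2, -⟩
  · exact h2
  · have := h.ho; omega

lemma parents (h : Mn P m) {x : ℕ × ℕ} (hx : inS P x) (h1 : x.1 ≤ m) :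
    ∃ p p' : ℕ × ℕ, p ≠ p' ∧ inS P p ∧ inS P p' ∧ p.1 = x.1 + 1 ∧ p'.1 = x.1 + 1 ∧
      R0 P x p ∧ R0 P x p' := by
  have ho := h.ho
  have hv := lt_N h hx (by omega)
  have hb : 2 * up P x.1 x.2 + 1 < P.N (x.1 + 1) := by
    unfold up
    rcases Nat.lt_or_ge x.1 m with h3 | h3
    · obtain ⟨B, hB1, hB2⟩ := h.hN x.1 h3
      rw [if_pos (by omega), hB2]
      rw [hB1] at hv
      have : x.2 / (x.1 + 1) < B := Nat.div_lt_of_lt_mul hv
      omega
    · have h4 : x.1 = m := by omega
      rw [if_neg (by omega), h4, h.hN1]; omega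
  refine ⟨(x.1 + 1, 2 * up P x.1 x.2), (x.1 + 1, 2 * up P x.1 x.2 + 1), ?_, ?_, ?_, rfl, rfl,
    ⟨rfl, by simp only; omega, by simp only; omega⟩, ⟨rfl, by simp only; omega, by simp only; omega⟩⟩
  · simp
  · exact Or.inl ⟨by simp only; omega, by simp only; omega⟩
  · exact Or.inl ⟨by simp only; omega, by simp only; omega⟩

lemma child (h : Mn P m) {x : ℕ × ℕ} (hx : inS P x) {l : ℕ} (h1 : x.1 = l + 1) (h2 : l ≤ m) :
    ∃ y : ℕ × ℕ, inS P y ∧ y.1 = l ∧ R0 P y x := by
  have ho := h.ho
  have hv := lt_N h hx (by omega)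
  rcases Nat.lt_or_ge l m with h3 | h3
  · obtain ⟨B, hB1, hB2⟩ := h.hN l h3
    rw [h1, hB2] at hv
    have hvB : x.2 / 2 < B := Nat.div_lt_of_lt_mul hv
    refine ⟨(l, (l + 1) * (x.2 / 2)), Or.inl ⟨by simp only; omega, ?_⟩, rfl, h1, by omega, ?_⟩
    · simp only; rw [hB1]; exact Nat.mul_lt_mul_of_pos_left hvB (by omega)
    · simp only
      unfold up
      rw [if_pos (by omega), Nat.mul_div_cancel_left _ (by omega)]
  · have h4 : l = m := by omega
    subst h4
    rw [h1, h.hN1] at hv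
    refine ⟨(l, 0), Or.inl ⟨by simp only; omega, by simp only; have := h.hN2; omega⟩, rfl, h1,
      by omega, ?_⟩
    simp only
    unfold up
    rw [if_neg (by omega)]; omega

/-- another child -/
lemma child' (h : Mn P m) {x u : ℕ × ℕ} (hx : inS P x) {l : ℕ} (h1 : x.1 = l + 1) (h0 : 1 ≤ l)
    (h2 : l < m) : ∃ y : ℕ × ℕ, y ≠ u ∧ inS P y ∧ y.1 = l ∧ R0 P y x := by
  have ho := h.ho
  have hv := lt_N h hx (by omega)
  obtain ⟨B, hB1, hB2⟩ := h.hN l h2
  rw [h1, hB2] at hv
  have hvB : x.2 / 2 < B := Nat.div_lt_of_lt_mul hv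
  have hle : (l + 1) * (x.2 / 2) + (l + 1) ≤ (l + 1) * B := by
    calc (l + 1) * (x.2 / 2) + (l + 1) = (l + 1) * (x.2 / 2 + 1) := by ring
      _ ≤ (l + 1) * B := Nat.mul_le_mul_left _ hvB
  have key : ∀ e, e ≤ 1 → inS P (l, (l + 1) * (x.2 / 2) + e) ∧
      R0 P (l, (l + 1) * (x.2 / 2) + e) x := by
    intro e he
    refine ⟨Or.inl ⟨by simp only; omega, by simp only; rw [hB1]; omega⟩, h1, by omega, ?_⟩
    simp only
    unfold up
    rw [if_pos (by omega)]
    exact block_div (by omega) (by omega)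
  by_cases hc : u = (l, (l + 1) * (x.2 / 2) + 0)
  · refine ⟨(l, (l + 1) * (x.2 / 2) + 1), ?_, (key 1 le_rfl).1, rfl, (key 1 le_rfl).2⟩
    rw [hc]; simp
  · exact ⟨(l, (l + 1) * (x.2 / 2) + 0), fun hh => hc hh.symm, (key 0 (by omega)).1, rfl,
      (key 0 (by omega)).2⟩

lemma down (h : Mn P m) : ∀ l, l ≤ m + 1 → ∀ x : ℕ × ℕ, inS P x → x.1 = l →
    ∃ f : ℕ → ℕ × ℕ, f l = x ∧ (∀ t, t ≤ l → inS P (f t) ∧ (f t).1 = t) ∧
      ∀ t, t < l → R0 P (f t) (f (t + 1)) := by
  intro l
  induction l with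
  | zero =>
    intro _ x hx h1
    refine ⟨fun _ => x, rfl, ?_, fun t ht => by omega⟩
    intro t ht
    have : t = 0 := by omega
    subst this
    exact ⟨hx, h1⟩
  | succ l ih =>
    intro hl x hx h1
    obtain ⟨y, hy1, hy2, hy3⟩ := child h hx h1 (by omega)
    obtain ⟨f, hf1, hf2, hf3⟩ := ih (by omega) y hy1 hy2
    refine ⟨fun t => if t ≤ l then f t else x, by simp, ?_, ?_⟩
    · intro t ht
      by_cases h2 : t ≤ l
      · simp only [if_pos h2]; exact hf2 t h2
      · simp only [if_neg h2]; exact ⟨hx, by omega⟩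
    · intro t ht
      by_cases h2 : t < l
      · simp only [if_pos h2.le, if_pos (Nat.succ_le_of_lt h2)]; exact hf3 t h2
      · have : t = l := by omega
        subst this
        simp only [if_pos le_rfl, if_neg (Nat.not_succ_le_self t), hf1]
        exact hy3

lemma upw (h : Mn P m) : ∀ d l, l + d = m + 1 → ∀ x : ℕ × ℕ, inS P x → x.1 = l →
    ∃ f : ℕ → ℕ × ℕ, f l = x ∧ (∀ t, l ≤ t → t ≤ m + 1 → inS P (f t) ∧ (f t).1 = t) ∧
      ∀ t, l ≤ t → t < m + 1 → R0 P (f t) (f (t + 1)) := by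
  intro d
  induction d with
  | zero =>
    intro l hl x hx h1
    refine ⟨fun _ => x, rfl, ?_, fun t ht ht' => by omega⟩
    intro t ht ht'
    have : t = l := by omega
    subst this
    exact ⟨hx, h1⟩
  | succ d ih =>
    intro l hl x hx h1
    obtain ⟨p, p', -, hp1, -, hp2, -, hp3, -⟩ := parents h hx (by omega)
    obtain ⟨f, hf1, hf2, hf3⟩ := ih (l + 1) (by omega) p hp1 (by omega)
    refine ⟨fun t => if t ≤ l then x else f t, by simp, ?_, ?_⟩
    · intro t ht ht'
      by_cases h2 : t ≤ l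
      · simp only [if_pos h2]; exact ⟨hx, by omega⟩
      · simp only [if_neg h2]; exact hf2 t (by omega) ht'
    · intro t ht ht'
      by_cases h2 : t = l
      · subst h2
        simp only [if_pos le_rfl, if_neg (Nat.not_succ_le_self t), hf1]
        exact hp3
      · simp only [if_neg (show ¬ t ≤ l by omega), if_neg (show ¬ t + 1 ≤ l by omega)]
        exact hf3 t (by omega) ht'

/-- an edge at a vertex of a level below `m` -/
lemma path_low (h : Mn P m) {u w : ℕ × ℕ} (hu : inS P u) (huw : u ≠ w)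
    (hn : ¬ R P u w) (hlow : u.1 < m) : ∃ f, Pth P u w P.k f := by
  have ho := h.ho
  have hk := h.hk
  obtain ⟨p, p', hpp, hp1, hp2, hp3, hp4, hp5, hp6⟩ := parents h hu hlow.le
  obtain ⟨fu, hfu1, hfu2, hfu3⟩ := upw h (m - u.1) (u.1 + 1) (by omega) p' hp2 hp4
  have hd : ∃ fd : ℕ → ℕ × ℕ, (∀ t, 1 ≤ t → t ≤ u.1 → inS P (fd t) ∧ (fd t).1 = t) ∧
      (1 ≤ u.1 → fd u.1 ≠ u ∧ R0 P (fd u.1) p) ∧
      (∀ t, 1 ≤ t → t < u.1 → R0 P (fd t) (fd (t + 1))) := by
    rcases Nat.eq_zero_or_pos u.1 with h0 | h0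
    · exact ⟨fun _ => u, fun t _ _ => by omega, fun _ => by omega, fun t _ _ => by omega⟩
    · obtain ⟨y, hy1, hy2, hy3, hy4⟩ := child' (u := u) h hp1 hp3 h0 hlow
      obtain ⟨f, hf1, hf2, hf3⟩ := down h u.1 (by omega) y hy2 hy3
      exact ⟨f, fun t _ ht => hf2 t ht, fun _ => by rw [hf1]; exact ⟨hy1, hy4⟩,
        fun t _ ht => hf3 t ht⟩
  obtain ⟨fd, hfd1, hfd2, hfd3⟩ := hd
  have hpw : p ≠ w := fun hh => hn (Or.inl (hh ▸ hp5))
  have hpu : p ≠ u := fun hh => by rw [hh] at hp3; omega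
  set i := u.1 with hi
  set F : ℕ → ℕ × ℕ := fun t => if t < i then fd (t + 1) else if t = i then p else
    if t = i + 1 then u else fu (t - 1) with hF
  have e1 : ∀ t, t < i → F t = fd (t + 1) := fun t ht => by simp only [hF, if_pos ht]
  have e2 : F i = p := by simp [hF]
  have e3 : F (i + 1) = u := by simp [hF]
  have e4 : ∀ t, i + 2 ≤ t → F t = fu (t - 1) := fun t ht => by
    simp only [hF]
    rw [if_neg (by omega), if_neg (by omega), if_neg (by omega)]
  have lev : ∀ t, t < P.k → inS P (F t) ∧ (F t).1 = if t ≤ i then t + 1 else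
      if t = i + 1 then i else t - 1 := by
    intro t ht
    rcases Nat.lt_trichotomy t i with h1 | h1 | h1
    · rw [e1 t h1, if_pos h1.le]
      exact hfd1 (t + 1) (by omega) (by omega)
    · subst h1
      rw [if_pos le_rfl, e2]
      exact ⟨hp1, hp3⟩
    · rcases Nat.lt_or_ge (i + 1) t with h2 | h2
      · rw [e4 t h2, if_neg (by omega), if_neg (by omega)]
        exact hfu2 (t - 1) (by omega) (by omega)
      · have : t = i + 1 := by omega
        subst this
        rw [e3, if_neg (by omega), if_pos rfl]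
        exact ⟨hu, hi.symm⟩
  refine ⟨F, fun t ht => (lev t ht).1, ?_, ?_, ?_⟩
  · intro s t hst ht heq
    have l1 := (lev s (by omega)).2
    have l2 := (lev t ht).2
    rw [heq, l2] at l1
    rcases Nat.lt_or_ge i s with c1 | c1
    · rw [if_neg (show ¬ t ≤ i by omega), if_neg (show ¬ t = i + 1 by omega),
        if_neg (show ¬ s ≤ i by omega)] at l1
      split_ifs at l1 <;> omega
    · rw [if_pos c1] at l1
      rcases Nat.lt_trichotomy t (i + 1) with c2 | c2 | c2
      · rw [if_pos (show t ≤ i by omega)] at l1; omega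
      · rw [if_neg (show ¬ t ≤ i by omega), if_pos c2] at l1
        have hs1 : s + 1 = i := by omega
        rw [e1 s (by omega), hs1, c2, e3] at heq
        exact (hfd2 (by omega)).1 heq
      · rw [if_neg (show ¬ t ≤ i by omega), if_neg (show ¬ t = i + 1 by omega)] at l1
        have hs1 : s = i := by omega
        have ht1 : t = i + 2 := by omega
        rw [hs1, ht1, e2, e4 _ le_rfl] at heq
        rw [show i + 2 - 1 = i + 1 from rfl, hfu1] at heq
        exact hpp heq
  · intro t ht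
    left
    rcases Nat.lt_trichotomy t i with h1 | h1 | h1
    · rcases Nat.lt_or_ge (t + 1) i with h2 | h2
      · rw [e1 t h1, e1 (t + 1) h2]; exact Or.inl (hfd3 (t + 1) (by omega) h2)
      · have h3 : t + 1 = i := by omega
        rw [e1 t h1, h3, e2]; exact Or.inl (hfd2 (by omega)).2
    · rw [h1, e2, e3]; exact Or.inr (Or.inl hp5)
    · rcases Nat.lt_or_ge (i + 1) t with h2 | h2
      · rw [e4 t h2, e4 (t + 1) (by omega)]
        have := hfu3 (t - 1) (by omega) (by omega)
        rw [show t - 1 + 1 = t + 1 - 1 by omega] at this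
        exact Or.inl this
      · have h3 : t = i + 1 := by omega
        rw [h3, e3, e4 (i + 1 + 1) (by omega), show i + 1 + 1 - 1 = i + 1 from rfl, hfu1]
        exact Or.inl hp6
  · intro t ht
    rcases Nat.lt_trichotomy t i with h1 | h1 | h1
    · rcases Nat.lt_or_ge (t + 1) i with h2 | h2
      · rw [e1 t h1, e1 (t + 1) h2]; exact step h huw (hfd3 (t + 1) (by omega) h2)
      · have h3 : t + 1 = i := by omega
        rw [e1 t h1, h3, e2]; exact step h huw (hfd2 (by omega)).2
    · rw [h1, e2, e3, del_other hpu hpw, del_self huw, dg_low h (by omega), dg_low h (by omega)]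
      omega
    · rcases Nat.lt_or_ge (i + 1) t with h2 | h2
      · rw [e4 t h2, e4 (t + 1) (by omega)]
        have := hfu3 (t - 1) (by omega) (by omega)
        rw [show t - 1 + 1 = t + 1 - 1 by omega] at this
        exact step h huw this
      · have h3 : t = i + 1 := by omega
        rw [h3, e3, e4 (i + 1 + 1) (by omega), show i + 1 + 1 - 1 = i + 1 from rfl, hfu1]
        exact step h huw hp6

/-- an edge between two vertices of level `m` -/
lemma path_top (h : Mn P m) {u w : ℕ × ℕ} (hu : inS P u) (hw : inS P w) (huw : u ≠ w)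
    (h1 : u.1 = m) (h2 : w.1 = m) : ∃ f, Pth P u w P.k f := by
  have ho := h.ho
  have hk := h.hk
  obtain ⟨c, -, -, hc1, -, hc2, -, hc3, -⟩ := parents h hw h2.le
  obtain ⟨fd, hfd1, hfd2, hfd3⟩ := down h m (by omega) u hu h1
  set F : ℕ → ℕ × ℕ := fun t => if t ≤ m then fd t else if t = m + 1 then w else c with hF
  have e1 : ∀ t, t ≤ m → F t = fd t := fun t ht => by simp only [hF, if_pos ht]
  have e2 : F (m + 1) = w := by simp [hF]
  have e3 : F (m + 2) = c := by simp [hF]
  have lev : ∀ t, t < P.k → inS P (F t) ∧ (F t).1 = if t ≤ m then t else t - 1 := by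
    intro t ht
    rcases Nat.lt_or_ge m t with h3 | h3
    · rcases Nat.lt_or_ge (m + 1) t with h4 | h4
      · have : t = m + 2 := by omega
        subst this
        rw [e3, if_neg (by omega)]
        exact ⟨hc1, by omega⟩
      · have : t = m + 1 := by omega
        subst this
        rw [e2, if_neg (by omega)]
        exact ⟨hw, by omega⟩
    · rw [e1 t h3, if_pos h3]; exact hfd2 t h3
  refine ⟨F, fun t ht => (lev t ht).1, ?_, ?_, ?_⟩
  · intro s t hst ht heq
    have l1 := (lev s (by omega)).2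
    have l2 := (lev t ht).2
    rw [heq, l2] at l1
    split_ifs at l1 with c1 c2 c3
    all_goals try omega
    have hs1 : s = m := by omega
    have ht1 : t = m + 1 := by omega
    rw [hs1, ht1, e1 m le_rfl, e2, hfd1] at heq
    exact huw heq
  · intro t ht
    rcases Nat.lt_or_ge t m with h3 | h3
    · rw [e1 t h3.le, e1 (t + 1) h3]; exact Or.inl (Or.inl (hfd3 t h3))
    · rcases Nat.lt_or_ge m t with h4 | h4
      · have : t = m + 1 := by omega
        subst this
        rw [e2, e3]; exact Or.inl (Or.inl hc3)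
      · have : t = m := by omega
        subst this
        rw [e1 t le_rfl, e2, hfd1]; exact Or.inr (Or.inl ⟨rfl, rfl⟩)
  · intro t ht
    rcases Nat.lt_or_ge t m with h3 | h3
    · rw [e1 t h3.le, e1 (t + 1) h3]; exact step h huw (hfd3 t h3)
    · rcases Nat.lt_or_ge m t with h4 | h4
      · have : t = m + 1 := by omega
        subst this
        rw [e2, e3]; exact step h huw hc3
      · have : t = m := by omega
        subst this
        rw [e1 t le_rfl, e2, hfd1, del_self huw, del_self' huw, dg_low h (by omega),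
          dg_low h (by omega)]
        omega

/-- an edge between the two vertices of level `m + 1` -/
lemma path_core (h : Mn P m) {u w : ℕ × ℕ} (hu : inS P u) (hw : inS P w) (huw : u ≠ w)
    (h1 : u.1 = m + 1) (h2 : w.1 = m + 1) : ∃ f, Pth P u w P.k f := by
  have ho := h.ho
  have hk := h.hk
  obtain ⟨fd, hfd1, hfd2, hfd3⟩ := down h (m + 1) (by omega) u hu h1
  set F : ℕ → ℕ × ℕ := fun t => if t ≤ m + 1 then fd t else w with hF
  have e1 : ∀ t, t ≤ m + 1 → F t = fd t := fun t ht => by simp only [hF, if_pos ht]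
  have e2 : F (m + 2) = w := by simp [hF]
  have lev : ∀ t, t < P.k → inS P (F t) ∧ (F t).1 = if t ≤ m + 1 then t else m + 1 := by
    intro t ht
    rcases Nat.lt_or_ge (m + 1) t with h3 | h3
    · have : t = m + 2 := by omega
      subst this
      rw [e2, if_neg (by omega)]
      exact ⟨hw, h2⟩
    · rw [e1 t h3, if_pos h3]; exact hfd2 t h3
  refine ⟨F, fun t ht => (lev t ht).1, ?_, ?_, ?_⟩
  · intro s t hst ht heq
    have l1 := (lev s (by omega)).2
    have l2 := (lev t ht).2
    rw [heq, l2] at l1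
    split_ifs at l1 with c1 c2 c3
    all_goals try omega
    have hs1 : s = m + 1 := by omega
    have ht1 : t = m + 2 := by omega
    rw [hs1, ht1, e1 _ le_rfl, e2, hfd1] at heq
    exact huw heq
  · intro t ht
    rcases Nat.lt_or_ge t (m + 1) with h3 | h3
    · rw [e1 t h3.le, e1 (t + 1) h3]; exact Or.inl (Or.inl (hfd3 t h3))
    · have : t = m + 1 := by omega
      subst this
      rw [e1 _ le_rfl, e2, hfd1]; exact Or.inr (Or.inl ⟨rfl, rfl⟩)
  · intro t ht
    rcases Nat.lt_or_ge t (m + 1) with h3 | h3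
    · rw [e1 t h3.le, e1 (t + 1) h3]; exact step h huw (hfd3 t h3)
    · have : t = m + 1 := by omega
      subst this
      rw [e1 _ le_rfl, e2, hfd1, del_self huw, del_self' huw, dg_top h h1, dg_top h h2]

end main

end Pool.Agent.X101.DMP
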